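import Pool.Agent.V11316.D4

set_option autoImplicit false

/-!
# The congruence modulo `Φ_n(q)²` with numerator parameters `q, q², …, q^d`

We work in the field `ℚ(q) = RatFunc ℚ`.
-/

namespace Pool.Agent.Results.MP_4d1f21_nt.PhiSquare

open Polynomial Finset

noncomputable section

/-- the indeterminate `q` -/
def q : RatFunc ℚ := RatFunc.X

/-- an integer polynomial in `q`, seen in `ℚ(q)` -/
def toRat (f : ℤ[X]) : RatFunc ℚ :=
  algebraMap ℚ[X] (RatFunc ℚ) (f.map (Int.castRingHom ℚ))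

/-- the `q`-shifted factorial `(a;p)_k = ∏_{i<k} (1 - a p^i)` -/
def poch (a p : RatFunc ℚ) (k : ℕ) : RatFunc ℚ := ∏ i ∈ range k, (1 - a * p ^ i)

/-- `x ≡ 0 (mod Φ_n(q)^s)`: `x = A/B` with `A, B ∈ ℤ[q]`, `B` not divisible by (equivalently, as
`Φ_n` is irreducible, coprime to) `Φ_n(q)`, and `Φ_n(q)^s ∣ A` in `ℤ[q]`. -/
def CongZero (n s : ℕ) (x : RatFunc ℚ) : Prop :=
  ∃ A B : ℤ[X], ¬ cyclotomic n ℤ ∣ B ∧ cyclotomic n ℤ ^ s ∣ A ∧ x * toRat B = toRat A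

/-- the sum of the question: `m = d(d+1)/2`, numerator parameters `q, q², …, q^d`, base `q^m` -/
def S (d n : ℕ) : RatFunc ℚ :=
  ∑ k ∈ range n,
    (∏ j ∈ Icc 1 d, poch (q ^ j) (q ^ (d * (d + 1) / 2)) k) /
      (poch (q ^ (d * (d + 1) / 2)) (q ^ (d * (d + 1) / 2)) k) ^ d *
      q ^ (d * (d + 1) / 2 * k)

theorem result (d n : ℕ) (hd : 3 ≤ d) (hn : 1 < n) (hdvd : d * (d + 1) / 2 ∣ n + 1) :
    CongZero n 2 (S d n) := by
  have hsum : ∑ j : Fin d, ((j : ℕ) + 1) = d * (d + 1) / 2 := by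
    rw [Fin.sum_univ_eq_sum_range (fun j => j + 1) d]
    have h := Finset.sum_range_id_mul_two (d + 1)
    rw [sum_range_succ' (fun i => i) d] at h
    simp only [add_zero, Nat.add_sub_cancel] at h
    rw [mul_comm d (d + 1), ← h]
    simp
  have h1 := V11316.FD_cong hd (by omega : 0 < n) hdvd (fun j : Fin d => (j : ℕ) + 1)
    (fun j => Nat.succ_pos _) hsum
  have h2 : S d n = (∑ k ∈ range n,
      (∏ j : Fin d, V11316.poch (V11307.Q.q ^ (d * (d + 1) / 2)) (V11307.Q.q ^ ((j : ℕ) + 1)) k) *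
        ((V11316.poch (V11307.Q.q ^ (d * (d + 1) / 2)) (V11307.Q.q ^ (d * (d + 1) / 2)) k)⁻¹) ^ d *
        (V11307.Q.q ^ (d * (d + 1) / 2)) ^ k) := by
    unfold S
    refine sum_congr rfl fun k _ => ?_
    rw [div_eq_mul_inv, inv_pow, pow_mul]
    congr 2
    rw [Fin.prod_univ_eq_prod_range
      (fun j => V11316.poch (V11307.Q.q ^ (d * (d + 1) / 2)) (V11307.Q.q ^ (j + 1)) k) d,
      Finset.range_eq_Ico,
      Finset.prod_Ico_add'
        (fun j => V11316.poch (V11307.Q.q ^ (d * (d + 1) / 2)) (V11307.Q.q ^ j) k) 0 d 1]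
    congr 1
  rw [h2]
  obtain ⟨A, B, hB, hA, h⟩ := V11316.I.int (by omega : 0 < n) h1
  exact ⟨A, B, hB, hA, h⟩

end

end Pool.Agent.Results.MP_4d1f21_nt.PhiSquare
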